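import Pool.Agent.H22.Claw1

namespace Pool.Agent.Results.MP_7f80d9_lc.Claw

open Pool.Agent.H22.CT

/-- Claw-Free Contraction is W[2]-hard: Dominating Set has a parameterized reduction to it. -/
theorem result : W2Hard (Con₁ claw) := hard_claw

end Pool.Agent.Results.MP_7f80d9_lc.Claw
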